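import Mathlib

set_option autoImplicit false

namespace Pool.Agent.helper358_erw

open Finset MeasureTheory ProbabilityTheory

/-- number of failures among the first `n` trials -/
def fails (e : ℕ → Bool) (n : ℕ) : ℕ := ((range n).filter (fun i => e i = false)).card

/-- number of successes before the `x`-th failure -/
noncomputable def U (x : ℕ) (e : ℕ → Bool) : ℕ := sInf {n | x ≤ fails e n} - x

/-- the trials stopped at the `x`-th failure: (number of successes, number of failures) -/
def St (x : ℕ) (e : ℕ → Bool) : ℕ → ℕ × ℕ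
  | 0 => (0, 0)
  | N + 1 => if (St x e N).2 < x then
      (if e N then ((St x e N).1 + 1, (St x e N).2) else ((St x e N).1, (St x e N).2 + 1))
      else St x e N

lemma St_congr (x : ℕ) (e e' : ℕ → Bool) (N : ℕ) (h : ∀ j < N, e j = e' j) :
    St x e N = St x e' N := by
  induction N with
  | zero => rfl
  | succ N ih => rw [St, St, ih (fun j hj => h j (by omega)), h N (by omega)]

lemma fails_succ (e : ℕ → Bool) (n : ℕ) :
    fails e (n + 1) = fails e n + (if e n = false then 1 else 0) := by
  unfold fails
  rw [range_add_one, filter_insert]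
  split_ifs with h
  · rw [card_insert_of_notMem (by simp)]
  · simp

lemma fails_le (e : ℕ → Bool) (n : ℕ) : fails e n ≤ n := by
  induction n with
  | zero => simp [fails]
  | succ n ih => rw [fails_succ]; split_ifs <;> omega

lemma fails_mono (e : ℕ → Bool) : Monotone (fails e) :=
  monotone_nat_of_le_succ fun n => by rw [fails_succ]; omega

lemma St_le (x : ℕ) (e : ℕ → Bool) (N : ℕ) : (St x e N).2 ≤ x := by
  induction N with
  | zero => simp [St]
  | succ N ih =>
    rw [St]
    split_ifs with h1 h2
    · exact ih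
    · show (St x e N).2 + 1 ≤ x
      omega
    · exact ih

lemma St_sum (x : ℕ) (e : ℕ → Bool) (N : ℕ) (h : (St x e N).2 < x) :
    (St x e N).1 + (St x e N).2 = N := by
  induction N with
  | zero => simp [St]
  | succ N ih =>
    have h0 : (St x e N).2 < x := by
      rw [St] at h
      split_ifs at h with h1 h2 <;> first | exact h1 | exact h
    have := ih h0
    rw [St, if_pos h0]
    split_ifs <;> simp <;> omega

lemma St_eq_of_lt (x : ℕ) (e : ℕ → Bool) (N : ℕ) (h : ∀ n < N, fails e n < x) :
    (St x e N).2 = fails e N ∧ (St x e N).1 + fails e N = N := by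
  induction N with
  | zero => simp [St, fails]
  | succ N ih =>
    obtain ⟨h1, h2⟩ := ih fun n hn => h n (by omega)
    have h3 : (St x e N).2 < x := by rw [h1]; exact h N (by omega)
    rw [St, if_pos h3, fails_succ]
    by_cases h4 : e N = true
    · rw [if_pos h4]; simp [h4]; omega
    · have h5 : e N = false := by simpa using h4
      rw [if_neg h4]; simp [h5]; omega

lemma St_stable (x : ℕ) (e : ℕ → Bool) (N k : ℕ) (h : ¬ (St x e N).2 < x) :
    St x e (N + k) = St x e N := by
  induction k with
  | zero => rfl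
  | succ k ih => rw [← Nat.add_assoc, St, ih, if_neg h]

lemma St_final (x : ℕ) (e : ℕ → Bool) (h : ∃ n, x ≤ fails e n) (N : ℕ)
    (hN : sInf {n | x ≤ fails e n} ≤ N) : St x e N = (U x e, x) := by
  classical
  set t := sInf {n | x ≤ fails e n} with ht
  have hmem : x ≤ fails e t := Nat.sInf_mem h
  have hlt : ∀ n < t, fails e n < x := fun n hn => by
    have := Nat.notMem_of_lt_sInf hn
    simpa using this
  obtain ⟨h1, h2⟩ := St_eq_of_lt x e t hlt
  have h3 : fails e t = x := by
    refine le_antisymm ?_ hmem
    rw [← h1]; exact St_le x e t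
  have h4 : St x e t = (U x e, x) := by
    rw [h3] at h1 h2
    refine Prod.ext ?_ h1
    show (St x e t).1 = t - x
    omega
  obtain ⟨k, rfl⟩ := Nat.exists_eq_add_of_le hN
  rw [St_stable x e t k (by rw [h4]; simp), h4]

lemma St_sum_le (x : ℕ) (e : ℕ → Bool) (h : ∃ n, x ≤ fails e n) (N : ℕ) :
    (St x e N).1 + (St x e N).2 ≤ U x e + x := by
  classical
  have hm : ∀ N, (St x e N).1 + (St x e N).2 ≤ (St x e (N+1)).1 + (St x e (N+1)).2 := by
    intro N
    rw [St]
    split_ifs <;> simp <;> omega
  have hmono : Monotone fun N => (St x e N).1 + (St x e N).2 := monotone_nat_of_le_succ hm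
  have h1 := St_final x e h (max N (sInf {n | x ≤ fails e n})) (le_max_right _ _)
  have h2 := hmono (le_max_left N (sInf {n | x ≤ fails e n}))
  simp only [h1] at h2
  exact h2

/-- independent trials, the `k`-th with success probability `q k` -/
structure IsTrials {Ω : Type*} [MeasurableSpace Ω] (P : Measure Ω) (q : ℕ → ℝ) (η : ℕ → Ω → Bool) :
    Prop where
  meas : ∀ k, Measurable (η k)
  indep : iIndepFun η P
  prob : ∀ k, P {ω | η k ω = true} = ENNReal.ofReal (q k)

section

variable {Ω : Type*} [MeasurableSpace Ω] {P : Measure Ω} [IsProbabilityMeasure P] {q : ℕ → ℝ}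
  {η : ℕ → Ω → Bool}

def Rst (η : ℕ → Ω → Bool) (k : ℕ) (ω : Ω) : (range k) → Bool := fun i => η i ω

def ext0 (k : ℕ) (c : (range k) → Bool) (j : ℕ) : Bool := if h : j ∈ range k then c ⟨j, h⟩ else false

lemma St_Rst (x k : ℕ) (ω : Ω) :
    St x (fun j => η j ω) k = St x (ext0 k (Rst η k ω)) k := by
  refine St_congr x _ _ k fun j hj => ?_
  simp only [ext0, Rst]
  rw [dif_pos (mem_range.2 hj)]

lemma Rst_meas (hc : IsTrials P q η) (k : ℕ) : Measurable (Rst η k) :=
  measurable_pi_iff.2 fun i => hc.meas i

lemma integrable_St (hc : IsTrials P q η) (x k : ℕ) (f : ℕ × ℕ → ℝ) :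
    Integrable (fun ω => f (St x (fun j => η j ω) k)) P := by
  have h1 : (fun ω => f (St x (fun j => η j ω) k)) =
      (fun c => f (St x (ext0 k c) k)) ∘ (Rst η k) := by
    funext ω
    simp only [Function.comp]
    rw [← St_Rst]
  rw [h1]
  have hm := Rst_meas hc k
  haveI : IsFiniteMeasure (P.map (Rst η k)) := inferInstance
  exact Integrable.comp_measurable Integrable.of_finite hm

lemma coin_indep (hc : IsTrials P q η) (k : ℕ) :
    IndepFun (η k) (Rst η k) P := by
  have h := hc.indep.indepFun_finset ({k} : Finset ℕ) (range k)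
    (by simp) hc.meas
  exact h.comp (φ := fun c : (({k} : Finset ℕ) → Bool) => c ⟨k, mem_singleton_self k⟩) (ψ := id)
    Measurable.of_discrete measurable_id

lemma integral_coin (hq : ∀ k, 0 ≤ q k) (hc : IsTrials P q η) (k : ℕ) :
    ∫ ω, (if η k ω then (1:ℝ) else 0) ∂P = q k := by
  have h1 : (fun ω => (if η k ω then (1:ℝ) else 0)) = Set.indicator {ω | η k ω = true} 1 := by
    funext ω
    simp [Set.indicator]
  have hms : MeasurableSet {ω | η k ω = true} := hc.meas k (MeasurableSet.of_discrete (s := {true}))
  rw [h1, integral_indicator_one hms, Measure.real, hc.prob, ENNReal.toReal_ofReal (hq k)]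

lemma integral_coin' (hq : ∀ k, 0 ≤ q k) (hc : IsTrials P q η) (k : ℕ) :
    ∫ ω, (if η k ω then (0:ℝ) else 1) ∂P = 1 - q k := by
  have h1 : (fun ω => (if η k ω then (0:ℝ) else 1)) =
      fun ω => 1 - (if η k ω then (1:ℝ) else 0) := by
    funext ω
    split_ifs <;> simp
  rw [h1, integral_sub (integrable_const _), integral_coin hq hc]
  · simp
  · have := Integrable.comp_measurable (μ := P) (f := η k)
      (g := fun b : Bool => if b then (1:ℝ) else 0) Integrable.of_finite (hc.meas k)
    exact this

lemma hrec (hq : ∀ k, 0 ≤ q k) (hc : IsTrials P q η) (x k : ℕ) (f : ℕ × ℕ → ℝ) :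
    ∫ ω, f (St x (fun j => η j ω) (k + 1)) ∂P =
      ∫ ω, (fun s : ℕ × ℕ => if s.2 < x then q k * f (s.1 + 1, s.2) + (1 - q k) * f (s.1, s.2 + 1)
        else f s) (St x (fun j => η j ω) k) ∂P := by
  have hI := coin_indep hc k
  have hX := (hc.meas k).aemeasurable (μ := P)
  have hY := (Rst_meas hc k).aemeasurable (μ := P)
  set g1 : ℕ × ℕ → ℝ := fun s => if s.2 < x then f (s.1 + 1, s.2) else f s with hg1
  set g2 : ℕ × ℕ → ℝ := fun s => if s.2 < x then f (s.1, s.2 + 1) else f s with hg2
  have h1 := hI.integral_fun_comp_smul_comp (𝕜 := ℝ)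
    (f := fun b : Bool => if b then (1:ℝ) else 0)
    (g := fun c => g1 (St x (ext0 k c) k)) hX hY
    .of_discrete .of_discrete
  have h2 := hI.integral_fun_comp_smul_comp (𝕜 := ℝ)
    (f := fun b : Bool => if b then (0:ℝ) else 1)
    (g := fun c => g2 (St x (ext0 k c) k)) hX hY
    .of_discrete .of_discrete
  simp only [← St_Rst] at h1 h2
  rw [integral_coin hq hc] at h1
  rw [integral_coin' hq hc] at h2
  have hm1 : Measurable (fun ω => (if η k ω then (1:ℝ) else 0)) :=
    (Measurable.of_discrete (f := fun b : Bool => if b then (1:ℝ) else 0)).comp (hc.meas k)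
  have hm2 : Measurable (fun ω => (if η k ω then (0:ℝ) else 1)) :=
    (Measurable.of_discrete (f := fun b : Bool => if b then (0:ℝ) else 1)).comp (hc.meas k)
  have e1 : ∫ ω, f (St x (fun j => η j ω) (k + 1)) ∂P =
      (∫ ω, (if η k ω then (1:ℝ) else 0) • g1 (St x (fun j => η j ω) k) ∂P) +
      ∫ ω, (if η k ω then (0:ℝ) else 1) • g2 (St x (fun j => η j ω) k) ∂P := by
    rw [← integral_add]
    · refine integral_congr_ae (Filter.Eventually.of_forall fun ω => ?_)
      simp only [hg1, hg2]
      rw [St]
      by_cases h : η k ω = true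
      · by_cases h' : (St x (fun j => η j ω) k).2 < x
        · simp [h, h']
        · simp [h, h']
      · by_cases h' : (St x (fun j => η j ω) k).2 < x
        · simp [h, h']
        · simp [h, h']
    · refine (integrable_St hc x k g1).bdd_smul (C := 1) hm1.aestronglyMeasurable ?_
      refine Filter.Eventually.of_forall fun ω => ?_
      split_ifs <;> simp
    · refine (integrable_St hc x k g2).bdd_smul (C := 1) hm2.aestronglyMeasurable ?_
      refine Filter.Eventually.of_forall fun ω => ?_
      split_ifs <;> simp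
  rw [e1, h1, h2, smul_eq_mul, smul_eq_mul, ← integral_const_mul, ← integral_const_mul,
    ← integral_add ((integrable_St hc x k g1).const_mul _) ((integrable_St hc x k g2).const_mul _)]
  refine integral_congr_ae (Filter.Eventually.of_forall fun ω => ?_)
  simp only [hg1, hg2]
  by_cases h' : (St x (fun j => η j ω) k).2 < x
  · simp [h']
  · simp [h']; ring

end

end Pool.Agent.helper358_erw
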