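import Mathlib
import Pool.Agent.helper358_erw.Step

set_option autoImplicit false

namespace Pool.Agent.helper358_erw

open Finset MeasureTheory ProbabilityTheory Filter Topology

variable {Ω : Type*} [MeasurableSpace Ω] {P : Measure Ω} [IsProbabilityMeasure P] {q : ℕ → ℝ}
  {η : ℕ → Ω → Bool}

/-- successes minus failures minus drift -/
noncomputable def fM (Δ : ℕ → ℝ) (s : ℕ × ℕ) : ℝ := (s.1 : ℝ) - s.2 - Δ (s.1 + s.2)

/-- total number of trials -/
def fT (s : ℕ × ℕ) : ℝ := (s.1 : ℝ) + s.2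

/-- conditional variance -/
noncomputable def fV (Δ : ℕ → ℝ) (s : ℕ × ℕ) : ℝ :=
  ∑ i ∈ range (s.1 + s.2), (1 - (Δ (i + 1) - Δ i) ^ 2)

lemma mean_M (hq : ∀ k, 0 ≤ q k) (hc : IsTrials P q η) (Δ : ℕ → ℝ) (h0 : Δ 0 = 0)
    (hΔ : ∀ k, q k = (1 + (Δ (k + 1) - Δ k)) / 2) (x N : ℕ) :
    ∫ ω, fM Δ (St x (fun j => η j ω) N) ∂P = 0 := by
  induction N with
  | zero => simp [St, fM, h0]
  | succ N ih =>
    rw [hrec hq hc, ← ih]
    refine integral_congr_ae (Eventually.of_forall fun ω => ?_)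
    simp only
    split_ifs with h
    · have h1 := St_sum x (fun j => η j ω) N h
      set a := (St x (fun j => η j ω) N).1
      set b := (St x (fun j => η j ω) N).2
      simp only [fM]
      have e1 : a + 1 + b = N + 1 := by omega
      have e2 : a + (b + 1) = N + 1 := by omega
      rw [e1, e2, hΔ N]
      push_cast
      rw [h1]
      ring
    · rfl

lemma mean_M2 (hq : ∀ k, 0 ≤ q k) (hc : IsTrials P q η) (Δ : ℕ → ℝ) (h0 : Δ 0 = 0)
    (hΔ : ∀ k, q k = (1 + (Δ (k + 1) - Δ k)) / 2) (x N : ℕ) :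
    ∫ ω, ((fM Δ (St x (fun j => η j ω) N)) ^ 2 - fV Δ (St x (fun j => η j ω) N)) ∂P = 0 := by
  induction N with
  | zero => simp [St, fM, fV, h0]
  | succ N ih =>
    rw [hrec hq hc x N (fun s => fM Δ s ^ 2 - fV Δ s), ← ih]
    refine integral_congr_ae (Eventually.of_forall fun ω => ?_)
    simp only
    split_ifs with h
    · have h1 := St_sum x (fun j => η j ω) N h
      set a := (St x (fun j => η j ω) N).1
      set b := (St x (fun j => η j ω) N).2
      simp only [fM, fV]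
      have e1 : a + 1 + b = N + 1 := by omega
      have e2 : a + (b + 1) = N + 1 := by omega
      rw [e1, e2, h1, hΔ N, sum_range_succ]
      push_cast
      ring
    · rfl

/-- bounds on the drift -/
structure DriftBd (Δ : ℕ → ℝ) (D C : ℝ) : Prop where
  zero : Δ 0 = 0
  bd : ∀ k, |Δ k| ≤ D
  inc : ∀ k, |Δ (k + 1) - Δ k| ≤ 1
  sq : ∀ n, ∑ i ∈ range n, (Δ (i + 1) - Δ i) ^ 2 ≤ C

lemma fV_eq (Δ : ℕ → ℝ) (s : ℕ × ℕ) :
    fV Δ s = fT s - ∑ i ∈ range (s.1 + s.2), (Δ (i + 1) - Δ i) ^ 2 := by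
  unfold fV fT
  rw [sum_sub_distrib]
  simp

lemma q_nonneg {Δ : ℕ → ℝ} {D C : ℝ} (hb : DriftBd Δ D C)
    (hΔ : ∀ k, q k = (1 + (Δ (k + 1) - Δ k)) / 2) (k : ℕ) : 0 ≤ q k := by
  have := (abs_le.1 (hb.inc k)).1
  rw [hΔ]; linarith

lemma D_nonneg {Δ : ℕ → ℝ} {D C : ℝ} (hb : DriftBd Δ D C) : 0 ≤ D :=
  (abs_nonneg _).trans (hb.bd 0)

lemma mean_T {Δ : ℕ → ℝ} {D C : ℝ} (hb : DriftBd Δ D C) (hc : IsTrials P q η)
    (hΔ : ∀ k, q k = (1 + (Δ (k + 1) - Δ k)) / 2) (x N : ℕ) :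
    ∫ ω, fT (St x (fun j => η j ω) N) ∂P ≤ 2 * x + D := by
  have hm := mean_M (q_nonneg hb hΔ) hc Δ hb.zero hΔ x N
  have h1 : ∫ ω, fT (St x (fun j => η j ω) N) ∂P ≤
      ∫ ω, ((fM Δ (St x (fun j => η j ω) N)) + (2 * x + D)) ∂P := by
    refine integral_mono (integrable_St hc x N fT)
      ((integrable_St hc x N (fM Δ)).add (integrable_const _)) fun ω => ?_
    have h2 := St_le x (fun j => η j ω) N
    have h3 := (abs_le.1 (hb.bd ((St x (fun j => η j ω) N).1 + (St x (fun j => η j ω) N).2))).2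
    have h4 : ((St x (fun j => η j ω) N).2 : ℝ) ≤ x := by exact_mod_cast h2
    simp only [fT, fM]
    linarith
  rw [integral_add (integrable_St hc x N (fM Δ)) (integrable_const _), hm] at h1
  simpa using h1

lemma mean_Msq {Δ : ℕ → ℝ} {D C : ℝ} (hb : DriftBd Δ D C) (hc : IsTrials P q η)
    (hΔ : ∀ k, q k = (1 + (Δ (k + 1) - Δ k)) / 2) (x N : ℕ) :
    ∫ ω, (fM Δ (St x (fun j => η j ω) N)) ^ 2 ∂P ≤ 2 * x + D := by
  have h1 := mean_M2 (q_nonneg hb hΔ) hc Δ hb.zero hΔ x N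
  rw [integral_sub (integrable_St hc x N (fun s => fM Δ s ^ 2)) (integrable_St hc x N (fV Δ))] at h1
  have h2 : ∫ ω, fV Δ (St x (fun j => η j ω) N) ∂P ≤ ∫ ω, fT (St x (fun j => η j ω) N) ∂P := by
    refine integral_mono (integrable_St hc x N _) (integrable_St hc x N _) fun ω => ?_
    simp only [fV_eq]
    have := sum_nonneg (s := range ((St x (fun j => η j ω) N).1 + (St x (fun j => η j ω) N).2))
      (f := fun i => (Δ (i + 1) - Δ i) ^ 2) fun i _ => sq_nonneg _
    linarith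
  have h3 := mean_T hb hc hΔ x N
  linarith

lemma mean_Tsq {Δ : ℕ → ℝ} {D C : ℝ} (hb : DriftBd Δ D C) (hc : IsTrials P q η)
    (hΔ : ∀ k, q k = (1 + (Δ (k + 1) - Δ k)) / 2) (x N : ℕ) :
    ∫ ω, (1 + fT (St x (fun j => η j ω) N)) ^ 2 ∂P ≤
      2 * (2 * x + D) + 2 * (1 + 2 * x + D) ^ 2 := by
  have h1 : ∫ ω, (1 + fT (St x (fun j => η j ω) N)) ^ 2 ∂P ≤
      ∫ ω, (2 * (fM Δ (St x (fun j => η j ω) N)) ^ 2 + 2 * (1 + 2 * x + D) ^ 2) ∂P := by
    refine integral_mono (integrable_St hc x N (fun s => (1 + fT s) ^ 2))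
      (((integrable_St hc x N (fun s => fM Δ s ^ 2)).const_mul 2).add (integrable_const _))
      fun ω => ?_
    have h2 := St_le x (fun j => η j ω) N
    have h3 := (abs_le.1 (hb.bd ((St x (fun j => η j ω) N).1 + (St x (fun j => η j ω) N).2))).2
    have h4 : ((St x (fun j => η j ω) N).2 : ℝ) ≤ x := by exact_mod_cast h2
    simp only
    set T := fT (St x (fun j => η j ω) N) with hT
    set M := fM Δ (St x (fun j => η j ω) N) with hM
    have hT0 : 0 ≤ T := by rw [hT]; unfold fT; positivity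
    have h5 : 1 + T ≤ |M| + (1 + 2 * x + D) := by
      have := le_abs_self M
      have h6 : T ≤ M + (2 * x + D) := by
        rw [hT, hM]; simp only [fT, fM]; linarith
      linarith
    have h7 : (1 + T) ^ 2 ≤ (|M| + (1 + 2 * x + D)) ^ 2 :=
      pow_le_pow_left₀ (by linarith) h5 2
    have h8 : |M| ^ 2 = M ^ 2 := sq_abs M
    nlinarith [sq_nonneg (|M| - (1 + 2 * x + D))]
  rw [integral_add ((integrable_St hc x N (fun s => fM Δ s ^ 2)).const_mul 2)
    (integrable_const _), integral_const_mul] at h1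
  have h2 := mean_Msq hb hc hΔ x N
  simp only [integral_const, probReal_univ, one_smul] at h1
  linarith

/-- almost surely the `x`-th failure occurs -/
lemma ae_fail {Δ : ℕ → ℝ} {D C : ℝ} (hb : DriftBd Δ D C) (hc : IsTrials P q η)
    (hΔ : ∀ k, q k = (1 + (Δ (k + 1) - Δ k)) / 2) (x : ℕ) :
    ∀ᵐ ω ∂P, ∃ n, x ≤ fails (fun j => η j ω) n := by
  rw [ae_iff]
  have hD := D_nonneg hb
  have key : ∀ N : ℕ, P.real {ω | ¬ ∃ n, x ≤ fails (fun j => η j ω) n} * N ≤ 2 * x + D := by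
    intro N
    refine le_trans ?_ (mean_T hb hc hΔ x N)
    have h1 := mul_meas_ge_le_integral_of_nonneg (μ := P)
      (f := fun ω => fT (St x (fun j => η j ω) N))
      (Eventually.of_forall fun ω => by simp only [fT, Pi.zero_apply]; positivity)
      (integrable_St hc x N fT) (N : ℝ)
    refine le_trans ?_ h1
    rw [mul_comm]
    refine mul_le_mul_of_nonneg_left ?_ (by positivity)
    refine measureReal_mono fun ω hω => ?_
    simp only [Set.mem_setOf_eq, not_exists, not_le] at hω ⊢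
    obtain ⟨h2, h3⟩ := St_eq_of_lt x (fun j => η j ω) N fun n _ => hω n
    simp only [fT]
    have : (St x (fun j => η j ω) N).1 + (St x (fun j => η j ω) N).2 = N := by omega
    exact_mod_cast this.ge
  by_contra hne
  have hpos : 0 < P.real {ω | ¬ ∃ n, x ≤ fails (fun j => η j ω) n} := by
    rw [Measure.real, ENNReal.toReal_pos_iff]
    exact ⟨pos_iff_ne_zero.2 hne, measure_lt_top _ _⟩
  obtain ⟨N, hN⟩ := exists_nat_gt ((2 * x + D) / P.real {ω | ¬ ∃ n, x ≤ fails (fun j => η j ω) n})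
  rw [div_lt_iff₀ hpos] at hN
  have := key N
  rw [mul_comm] at this
  linarith

end Pool.Agent.helper358_erw
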