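import Mathlib
import Pool.Agent.helper358_erw.Mom

set_option autoImplicit false

namespace Pool.Agent.helper358_erw

open Finset Filter Topology

/-- the total drift of the first `m` cookies -/
noncomputable def Dl (m : ℕ) : ℝ := (1 + 5 / Real.log (m + 20)) * (m / (m + 8))

lemma log_ge_one (m : ℕ) : 1 ≤ Real.log ((m:ℝ) + 20) := by
  rw [Real.le_log_iff_exp_le (by positivity)]
  have h1 := Real.exp_one_lt_d9
  have h2 : (0:ℝ) ≤ m := by positivity
  linarith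

lemma g_bd (m : ℕ) : 0 ≤ 5 / Real.log ((m:ℝ) + 20) ∧ 5 / Real.log ((m:ℝ) + 20) ≤ 5 := by
  have h := log_ge_one m
  constructor
  · positivity
  · rw [div_le_iff₀ (by linarith)]; linarith

lemma g_diff (m : ℕ) : 0 ≤ 5 / Real.log ((m:ℝ) + 20) - 5 / Real.log ((m:ℝ) + 1 + 20) ∧
    5 / Real.log ((m:ℝ) + 20) - 5 / Real.log ((m:ℝ) + 1 + 20) ≤ 5 / ((m:ℝ) + 20) := by
  have h1 := log_ge_one m
  have h2 : 1 ≤ Real.log ((m:ℝ) + 1 + 20) := by have := log_ge_one (m + 1); push_cast at this; exact this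
  have hm : (0:ℝ) ≤ m := by positivity
  have h3 : Real.log ((m:ℝ) + 20) ≤ Real.log ((m:ℝ) + 1 + 20) :=
    Real.log_le_log (by positivity) (by linarith)
  have h4 : Real.log ((m:ℝ) + 1 + 20) - Real.log ((m:ℝ) + 20) ≤ 1 / ((m:ℝ) + 20) := by
    rw [← Real.log_div (by positivity) (by positivity)]
    have h5 : ((m:ℝ) + 1 + 20) / ((m:ℝ) + 20) = 1 + 1 / ((m:ℝ) + 20) := by field_simp; ring
    have h6 := Real.log_le_sub_one_of_pos (x := 1 + 1 / ((m:ℝ) + 20)) (by positivity)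
    rw [h5]; linarith
  set a := Real.log ((m:ℝ) + 20)
  set b := Real.log ((m:ℝ) + 1 + 20)
  have h7 : 5 / a - 5 / b = 5 * (b - a) / (a * b) := by field_simp
  rw [h7]
  constructor
  · have : 0 ≤ b - a := by linarith
    positivity
  · rw [div_le_iff₀ (by nlinarith)]
    have h8 : 5 * (b - a) ≤ 5 * (1 / ((m:ℝ) + 20)) := by linarith
    have h9 : 1 ≤ a * b := by nlinarith
    have h10 : 0 < 5 / ((m:ℝ) + 20) := by positivity
    calc 5 * (b - a) ≤ 5 * (1 / ((m:ℝ) + 20)) := h8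
      _ = 5 / ((m:ℝ) + 20) * 1 := by ring
      _ ≤ 5 / ((m:ℝ) + 20) * (a * b) := mul_le_mul_of_nonneg_left h9 h10.le

lemma Dl_diff (m : ℕ) : |Dl (m + 1) - Dl m| ≤ 11 / ((m:ℝ) + 9) ∧ |Dl (m + 1) - Dl m| ≤ 11 / 12 := by
  have hm : (0:ℝ) ≤ m := by positivity
  obtain ⟨h1, h2⟩ := g_diff m
  obtain ⟨h3, h4⟩ := g_bd m
  have h5 : 0 ≤ 5 / Real.log ((m:ℝ) + 1 + 20) ∧ 5 / Real.log ((m:ℝ) + 1 + 20) ≤ 5 := by
    have := g_bd (m + 1); push_cast at this; exact this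
  set a := 5 / Real.log ((m:ℝ) + 20) with ha
  set b := 5 / Real.log ((m:ℝ) + 1 + 20) with hb
  have e1 : Dl (m + 1) - Dl m = (1 + b) * (8 / (((m:ℝ) + 8) * ((m:ℝ) + 9))) - (a - b) * (m / (m + 8)) := by
    unfold Dl
    push_cast
    rw [← ha, ← hb]
    have : (m:ℝ) + 1 + 8 = m + 9 := by ring
    rw [this]
    field_simp
    ring
  have p1 : 0 ≤ (1 + b) * (8 / (((m:ℝ) + 8) * ((m:ℝ) + 9))) := by
    have := h5.1; positivity
  have p2 : (1 + b) * (8 / (((m:ℝ) + 8) * ((m:ℝ) + 9))) ≤ 48 / (((m:ℝ) + 8) * ((m:ℝ) + 9)) := by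
    have : (1 + b) * (8 / (((m:ℝ) + 8) * ((m:ℝ) + 9))) ≤ 6 * (8 / (((m:ℝ) + 8) * ((m:ℝ) + 9))) :=
      mul_le_mul_of_nonneg_right (by linarith [h5.2]) (by positivity)
    refine this.trans (le_of_eq ?_)
    ring
  have p3 : 0 ≤ (a - b) * ((m:ℝ) / (m + 8)) := mul_nonneg h1 (by positivity)
  have p4 : (a - b) * ((m:ℝ) / (m + 8)) ≤ 5 / ((m:ℝ) + 20) := by
    have hle : (m:ℝ) / (m + 8) ≤ 1 := by rw [div_le_one (by positivity)]; linarith
    calc (a - b) * ((m:ℝ) / (m + 8)) ≤ (a - b) * 1 := mul_le_mul_of_nonneg_left hle h1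
      _ ≤ _ := by rw [mul_one]; exact h2
  have q1 : 48 / (((m:ℝ) + 8) * ((m:ℝ) + 9)) ≤ 6 / ((m:ℝ) + 9) := by
    rw [div_le_div_iff₀ (by positivity) (by positivity)]
    nlinarith
  have q2 : 5 / ((m:ℝ) + 20) ≤ 5 / ((m:ℝ) + 9) := by
    apply div_le_div_of_nonneg_left (by norm_num) (by positivity) (by linarith)
  have q3 : 48 / (((m:ℝ) + 8) * ((m:ℝ) + 9)) ≤ 2 / 3 := by
    rw [div_le_div_iff₀ (by positivity) (by positivity)]
    nlinarith
  have q4 : 5 / ((m:ℝ) + 20) ≤ 1 / 4 := by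
    rw [div_le_div_iff₀ (by positivity) (by positivity)]
    linarith
  have q5 : 6 / ((m:ℝ) + 9) + 5 / ((m:ℝ) + 9) = 11 / ((m:ℝ) + 9) := by ring
  rw [e1]
  have q6 : 0 ≤ 6 / ((m:ℝ) + 9) := by positivity
  have q7 : 0 ≤ 5 / ((m:ℝ) + 9) := by positivity
  constructor
  · rw [abs_le]; constructor <;> linarith
  · rw [abs_le]; constructor <;> linarith

lemma Dl_nonneg (m : ℕ) : 0 ≤ Dl m := by
  have := (g_bd m).1
  unfold Dl; positivity

lemma Dl_le (m : ℕ) : Dl m ≤ 1 + 5 / Real.log ((m:ℝ) + 20) := by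
  have h1 := (g_bd m).1
  have hm : (0:ℝ) ≤ m := by positivity
  have hle : (m:ℝ) / (m + 8) ≤ 1 := by rw [div_le_one (by positivity)]; linarith
  unfold Dl
  calc _ ≤ (1 + 5 / Real.log ((m:ℝ) + 20)) * 1 := mul_le_mul_of_nonneg_left hle (by linarith)
    _ = _ := mul_one _

lemma Dl_sq (n : ℕ) : ∑ i ∈ range n, (Dl (i + 1) - Dl i) ^ 2 ≤ 16 := by
  have h : ∀ n : ℕ, ∑ i ∈ range n, (Dl (i + 1) - Dl i) ^ 2 ≤ 121 * (1 / 8 - 1 / ((n:ℝ) + 8)) := by
    intro n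
    induction n with
    | zero => simp
    | succ n ih =>
      rw [sum_range_succ]
      have h1 := (Dl_diff n).1
      have h2 : (Dl (n + 1) - Dl n) ^ 2 ≤ (11 / ((n:ℝ) + 9)) ^ 2 := by
        rw [← sq_abs]; exact pow_le_pow_left₀ (abs_nonneg _) h1 2
      have h3 : (11 / ((n:ℝ) + 9)) ^ 2 ≤ 121 * (1 / ((n:ℝ) + 8) - 1 / (((n + 1 : ℕ) : ℝ) + 8)) := by
        have hn : (0:ℝ) ≤ n := by positivity
        push_cast
        have e1 : (n:ℝ) + 1 + 8 = n + 9 := by ring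
        rw [e1]
        have e2 : 1 / ((n:ℝ) + 8) - 1 / ((n:ℝ) + 9) = 1 / (((n:ℝ) + 8) * ((n:ℝ) + 9)) := by
          field_simp; ring
        rw [e2, div_pow]
        have e3 : 121 * (1 / (((n:ℝ) + 8) * ((n:ℝ) + 9))) = 121 / (((n:ℝ) + 8) * ((n:ℝ) + 9)) := by ring
        rw [e3, div_le_div_iff₀ (by positivity) (by positivity)]
        nlinarith
      linarith
  refine (h n).trans ?_
  have : (0:ℝ) ≤ 1 / ((n:ℝ) + 8) := by positivity
  linarith

lemma Dl_bd : DriftBd Dl 6 16 where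
  zero := by simp [Dl]
  bd := fun k => by
    rw [abs_of_nonneg (Dl_nonneg k)]
    exact (Dl_le k).trans (by linarith [(g_bd k).2])
  inc := fun k => (Dl_diff k).2.trans (by norm_num)
  sq := Dl_sq

/-- for large `m` the drift is at least `1 + 4 / log (m + 20)` -/
lemma Dl_ge : ∃ m1 : ℕ, ∀ m ≥ m1, 1 + 4 / Real.log ((m:ℝ) + 20) ≤ Dl m := by
  have h1 : Tendsto (fun m : ℕ => Real.log ((m:ℝ) + 20) / ((m:ℝ) + 20)) atTop (𝓝 0) := by
    have h2 : Tendsto (fun y : ℝ => Real.log y / y) atTop (𝓝 0) := by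
      have := Real.isLittleO_log_id_atTop.tendsto_div_nhds_zero
      simpa using this
    exact h2.comp (tendsto_atTop_add_const_right _ _ tendsto_natCast_atTop_atTop)
  have h3 := (h1.eventually (gt_mem_nhds (show (0:ℝ) < 1 / 16 by norm_num))).and
    (eventually_ge_atTop 200)
  obtain ⟨m1, hm1⟩ := eventually_atTop.1 h3
  refine ⟨m1, fun m hm => ?_⟩
  obtain ⟨h4, h5⟩ := hm1 m hm
  have h6 : (200:ℝ) ≤ m := by exact_mod_cast h5
  rw [div_lt_iff₀ (by positivity)] at h4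
  have hL := log_ge_one m
  set L := Real.log ((m:ℝ) + 20) with hLd
  unfold Dl
  rw [← hLd]
  have h7 : (m:ℝ) / (m + 8) = 1 - 8 / (m + 8) := by field_simp; ring
  have h8 : (1 + 5 / L) * (8 / ((m:ℝ) + 8)) ≤ 1 / L := by
    rw [show (1 + 5 / L) * (8 / ((m:ℝ) + 8)) = (8 * (L + 5)) / (L * (m + 8)) by field_simp]
    rw [div_le_div_iff₀ (by positivity) (by positivity)]
    have : 8 * (L + 5) ≤ m + 8 := by linarith
    nlinarith
  rw [h7, mul_sub, mul_one]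
  have h9 : 5 / L = 4 / L + 1 / L := by ring
  rw [h9] at h8 ⊢
  linarith

/-- the tangent line inequality for `1 / log` -/
lemma inv_log_tangent {y z : ℝ} (hy : 1 < y) (hz : 1 < z) :
    1 / Real.log z - (y / z - 1) / (Real.log z) ^ 2 ≤ 1 / Real.log y := by
  have ha : 0 < Real.log y := Real.log_pos hy
  have hb : 0 < Real.log z := Real.log_pos hz
  have h1 : Real.log y - Real.log z ≤ y / z - 1 := by
    rw [← Real.log_div (by linarith) (by linarith)]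
    exact Real.log_le_sub_one_of_pos (by positivity)
  set a := Real.log y
  set b := Real.log z
  have h2 : 1 / b - (a - b) / b ^ 2 ≤ 1 / a := by
    have : 1 / a - (1 / b - (a - b) / b ^ 2) = (a - b) ^ 2 / (a * b ^ 2) := by
      field_simp; ring
    have h3 : 0 ≤ (a - b) ^ 2 / (a * b ^ 2) := by positivity
    linarith
  have h4 : (a - b) / b ^ 2 ≤ (y / z - 1) / b ^ 2 := div_le_div_of_nonneg_right h1 (by positivity)
  linarith

end Pool.Agent.helper358_erw
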