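import Mathlib
import Pool.Agent.helper358_erw.Mom

set_option autoImplicit false

namespace Pool.Agent.helper358_erw

open Finset MeasureTheory ProbabilityTheory Filter Topology

variable {Ω : Type*} [MeasurableSpace Ω] {P : Measure Ω} [IsProbabilityMeasure P] {q : ℕ → ℝ}
  {η : ℕ → Ω → Bool} {Δ : ℕ → ℝ} {D C : ℝ}

lemma ae_lim (hb : DriftBd Δ D C) (hc : IsTrials P q η)
    (hΔ : ∀ k, q k = (1 + (Δ (k + 1) - Δ k)) / 2) (x : ℕ) (g : ℕ × ℕ → ℝ) :
    ∀ᵐ ω ∂P, Tendsto (fun N => g (St x (fun j => η j ω) N)) atTop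
      (𝓝 (g (U x (fun j => η j ω), x))) := by
  filter_upwards [ae_fail hb hc hΔ x] with ω hω
  refine tendsto_const_nhds.congr' ?_
  filter_upwards [eventually_ge_atTop (sInf {n | x ≤ fails (fun j => η j ω) n})] with N hN
  rw [St_final x _ hω N hN]

lemma integrable_sq (hb : DriftBd Δ D C) (hc : IsTrials P q η)
    (hΔ : ∀ k, q k = (1 + (Δ (k + 1) - Δ k)) / 2) (x : ℕ) :
    Integrable (fun ω => (1 + fT (U x (fun j => η j ω), x)) ^ 2) P := by
  have hlim := ae_lim hb hc hΔ x (fun s => (1 + fT s) ^ 2)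
  have hint := fun N => integrable_St hc x N (fun s => (1 + fT s) ^ 2)
  refine ⟨aestronglyMeasurable_of_tendsto_ae atTop (fun N => (hint N).aestronglyMeasurable) hlim, ?_⟩
  have h1 : ∫⁻ ω, ‖(1 + fT (U x (fun j => η j ω), x)) ^ 2‖ₑ ∂P ≤
      liminf (fun N => ∫⁻ ω, ‖(1 + fT (St x (fun j => η j ω) N)) ^ 2‖ₑ ∂P) atTop := by
    have h2 : ∫⁻ ω, ‖(1 + fT (U x (fun j => η j ω), x)) ^ 2‖ₑ ∂P =
        ∫⁻ ω, liminf (fun N => ‖(1 + fT (St x (fun j => η j ω) N)) ^ 2‖ₑ) atTop ∂P := by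
      refine lintegral_congr_ae ?_
      filter_upwards [hlim] with ω hω
      exact (hω.enorm.liminf_eq).symm
    rw [h2]
    exact lintegral_liminf_le' fun N => (hint N).aestronglyMeasurable.enorm
  refine lt_of_le_of_lt h1 ?_
  have h3 : ∀ N, ∫⁻ ω, ‖(1 + fT (St x (fun j => η j ω) N)) ^ 2‖ₑ ∂P ≤
      ENNReal.ofReal (2 * (2 * x + D) + 2 * (1 + 2 * x + D) ^ 2) := by
    intro N
    have h4 : ∫⁻ ω, ‖(1 + fT (St x (fun j => η j ω) N)) ^ 2‖ₑ ∂P =
        ENNReal.ofReal (∫ ω, (1 + fT (St x (fun j => η j ω) N)) ^ 2 ∂P) := by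
      rw [ofReal_integral_eq_lintegral_ofReal (hint N)
        (Eventually.of_forall fun ω => sq_nonneg _)]
      refine lintegral_congr fun ω => ?_
      rw [Real.enorm_of_nonneg (sq_nonneg _)]
    rw [h4]
    exact ENNReal.ofReal_le_ofReal (mean_Tsq hb hc hΔ x N)
  have h5 : liminf (fun N => ∫⁻ ω, ‖(1 + fT (St x (fun j => η j ω) N)) ^ 2‖ₑ ∂P) atTop ≤
      ENNReal.ofReal (2 * (2 * x + D) + 2 * (1 + 2 * x + D) ^ 2) :=
    liminf_le_of_le (h := fun b hb' => by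
      obtain ⟨N, hN⟩ := hb'.exists
      exact hN.trans (h3 N))
  exact lt_of_le_of_lt h5 ENNReal.ofReal_lt_top

lemma lim_g (hb : DriftBd Δ D C) (hc : IsTrials P q η)
    (hΔ : ∀ k, q k = (1 + (Δ (k + 1) - Δ k)) / 2) (x : ℕ) (g : ℕ × ℕ → ℝ) (A : ℝ)
    (hg : ∀ s, |g s| ≤ A * (1 + fT s) ^ 2) :
    Integrable (fun ω => g (U x (fun j => η j ω), x)) P ∧
    Tendsto (fun N => ∫ ω, g (St x (fun j => η j ω) N) ∂P) atTop
      (𝓝 (∫ ω, g (U x (fun j => η j ω), x) ∂P)) := by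
  have hlim := ae_lim hb hc hΔ x g
  have hint := fun N => integrable_St hc x N g
  have hI := (integrable_sq hb hc hΔ x).const_mul A
  have hA : 0 ≤ A := by
    have h1 := (abs_nonneg _).trans (hg (0, 0))
    simpa [fT] using h1
  constructor
  · refine hI.mono' (aestronglyMeasurable_of_tendsto_ae atTop
      (fun N => (hint N).aestronglyMeasurable) hlim) (Eventually.of_forall fun ω => ?_)
    exact hg _
  · refine tendsto_integral_of_dominated_convergence
      (fun ω => A * (1 + fT (U x (fun j => η j ω), x)) ^ 2)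
      (fun N => (hint N).aestronglyMeasurable) hI (fun N => ?_) hlim
    filter_upwards [ae_fail hb hc hΔ x] with ω hω
    refine (hg _).trans ?_
    refine mul_le_mul_of_nonneg_left ?_ hA
    have h1 := St_sum_le x (fun j => η j ω) hω N
    have h2 : fT (St x (fun j => η j ω) N) ≤ fT (U x (fun j => η j ω), x) := by
      simp only [fT]
      exact_mod_cast h1
    have h3 : 0 ≤ fT (St x (fun j => η j ω) N) := by unfold fT; positivity
    exact pow_le_pow_left₀ (by linarith) (by linarith) 2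

lemma fT_nonneg (s : ℕ × ℕ) : 0 ≤ fT s := by unfold fT; positivity

lemma fM_bd (hb : DriftBd Δ D C) (s : ℕ × ℕ) : |fM Δ s| ≤ (1 + D) * (1 + fT s) := by
  have hD := D_nonneg hb
  have h1 := hb.bd (s.1 + s.2)
  have h2 : |(s.1 : ℝ) - s.2| ≤ fT s := by
    unfold fT
    rw [abs_le]
    have h3 : (0:ℝ) ≤ s.1 := by positivity
    have h4 : (0:ℝ) ≤ s.2 := by positivity
    constructor <;> linarith
  unfold fM
  calc |(s.1 : ℝ) - s.2 - Δ (s.1 + s.2)| ≤ |(s.1 : ℝ) - s.2| + |Δ (s.1 + s.2)| := abs_sub _ _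
    _ ≤ fT s + D := add_le_add h2 h1
    _ ≤ (1 + D) * (1 + fT s) := by nlinarith [fT_nonneg s, mul_nonneg hD (fT_nonneg s)]

theorem main_moments (hb : DriftBd Δ D C) (hc : IsTrials P q η)
    (hΔ : ∀ k, q k = (1 + (Δ (k + 1) - Δ k)) / 2) (x : ℕ) (hx : 1 ≤ x) :
    Integrable (fun ω => ((U x (fun j => η j ω) : ℕ) : ℝ) ^ 2) P ∧
    Integrable (fun ω => ((U x (fun j => η j ω) : ℕ) : ℝ)) P ∧
    Integrable (fun ω => Δ (U x (fun j => η j ω) + x)) P ∧
    ∫ ω, (((U x (fun j => η j ω) : ℕ) : ℝ) - x) ∂P = ∫ ω, Δ (U x (fun j => η j ω) + x) ∂P ∧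
    |∫ ω, (((U x (fun j => η j ω) : ℕ) : ℝ) - x) ^ 2 ∂P - 2 * x| ≤
      (2 * D + C + 2 + 2 * D ^ 2) * Real.sqrt x := by
  have hD := D_nonneg hb
  have hq := q_nonneg hb hΔ
  -- integrability
  have one_le : ∀ s : ℕ × ℕ, 1 ≤ 1 + fT s := fun s => by linarith [fT_nonneg s]
  have hU2 := (lim_g hb hc hΔ x (fun s => (s.1 : ℝ) ^ 2) 1 (fun s => by
    rw [abs_of_nonneg (by positivity), one_mul]
    have h3 : (0:ℝ) ≤ s.1 := by positivity
    have h4 : (0:ℝ) ≤ s.2 := by positivity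
    refine pow_le_pow_left₀ h3 ?_ 2
    unfold fT; linarith)).1
  have hU1 := (lim_g hb hc hΔ x (fun s => (s.1 : ℝ)) 1 (fun s => by
    rw [abs_of_nonneg (by positivity), one_mul]
    have h3 : (0:ℝ) ≤ s.1 := by positivity
    have h4 : (0:ℝ) ≤ s.2 := by positivity
    have h5 := one_le s
    have h6 : (s.1 : ℝ) ≤ 1 + fT s := by unfold fT; linarith
    nlinarith)).1
  have hDl := (lim_g hb hc hΔ x (fun s => Δ (s.1 + s.2)) D (fun s => by
    have h5 := one_le s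
    have h6 := hb.bd (s.1 + s.2)
    nlinarith [mul_le_mul_of_nonneg_left (one_le_pow₀ h5 (n := 2)) hD])).1
  obtain ⟨hM1, hM1l⟩ := lim_g hb hc hΔ x (fM Δ) (1 + D) (fun s => by
    refine (fM_bd hb s).trans ?_
    refine mul_le_mul_of_nonneg_left ?_ (by linarith)
    nlinarith [one_le s])
  obtain ⟨hM2, hM2l⟩ := lim_g hb hc hΔ x (fun s => fM Δ s ^ 2) ((1 + D) ^ 2) (fun s => by
    rw [abs_of_nonneg (sq_nonneg _), ← sq_abs, ← mul_pow]
    exact pow_le_pow_left₀ (abs_nonneg _) (fM_bd hb s) 2)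
  obtain ⟨hV, hVl⟩ := lim_g hb hc hΔ x (fV Δ) (1 + C) (fun s => by
    rw [fV_eq]
    have h1 := hb.sq (s.1 + s.2)
    have h2 : 0 ≤ ∑ i ∈ range (s.1 + s.2), (Δ (i + 1) - Δ i) ^ 2 :=
      sum_nonneg fun i _ => sq_nonneg _
    have h3 := fT_nonneg s
    have h4 : 0 ≤ C := h2.trans h1
    rw [abs_le]
    constructor <;> nlinarith [mul_nonneg h4 h3, mul_nonneg h4 (mul_nonneg h3 h3)])
  have z1 : ∫ ω, fM Δ (U x (fun j => η j ω), x) ∂P = 0 := by
    refine tendsto_nhds_unique hM1l ?_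
    simp only [mean_M hq hc Δ hb.zero hΔ x]
    exact tendsto_const_nhds
  have z2 : ∫ ω, (fM Δ (U x (fun j => η j ω), x)) ^ 2 ∂P =
      ∫ ω, fV Δ (U x (fun j => η j ω), x) ∂P := by
    refine tendsto_nhds_unique hM2l ?_
    refine hVl.congr fun N => ?_
    have h1 := mean_M2 hq hc Δ hb.zero hΔ x N
    rw [integral_sub (integrable_St hc x N (fun s => fM Δ s ^ 2))
      (integrable_St hc x N (fV Δ))] at h1
    linarith
  have hUx : Integrable (fun ω => (((U x (fun j => η j ω) : ℕ) : ℝ) - x)) P :=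
    hU1.sub (integrable_const _)
  have r1 : ∫ ω, (((U x (fun j => η j ω) : ℕ) : ℝ) - x) ∂P =
      ∫ ω, Δ (U x (fun j => η j ω) + x) ∂P := by
    have h1 : ∫ ω, fM Δ (U x (fun j => η j ω), x) ∂P =
        ∫ ω, (((U x (fun j => η j ω) : ℕ) : ℝ) - x) ∂P - ∫ ω, Δ (U x (fun j => η j ω) + x) ∂P := by
      rw [← integral_sub hUx hDl]
      rfl
    linarith
  refine ⟨hU2, hU1, hDl, r1, ?_⟩
  -- |ρ| ≤ D
  have hρ : |∫ ω, (((U x (fun j => η j ω) : ℕ) : ℝ) - x) ∂P| ≤ D := by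
    rw [r1]
    have h1 := norm_integral_le_of_norm_le_const (μ := P) (C := D)
      (f := fun ω => Δ (U x (fun j => η j ω) + x)) (Eventually.of_forall fun ω => hb.bd _)
    simpa using h1
  have hTint : Integrable (fun ω => fT (U x (fun j => η j ω), x)) P := by
    have h1 : Integrable (fun ω => ((U x (fun j => η j ω) : ℕ) : ℝ) + (x : ℝ)) P :=
      hU1.add (integrable_const _)
    exact h1
  have hT : ∫ ω, fT (U x (fun j => η j ω), x) ∂P =
      2 * x + ∫ ω, (((U x (fun j => η j ω) : ℕ) : ℝ) - x) ∂P := by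
    have h1 : (fun ω => fT (U x (fun j => η j ω), x)) =
        fun ω => (((U x (fun j => η j ω) : ℕ) : ℝ) - x) + 2 * x := by
      funext ω; simp only [fT]; ring
    rw [h1, integral_add hUx (integrable_const _)]
    simp
    ring
  have hv1 : ∫ ω, fV Δ (U x (fun j => η j ω), x) ∂P ≤ ∫ ω, fT (U x (fun j => η j ω), x) ∂P := by
    refine integral_mono hV hTint fun ω => ?_
    simp only [fV_eq]
    have := sum_nonneg (s := range (U x (fun j => η j ω) + x))
      (f := fun i => (Δ (i + 1) - Δ i) ^ 2) fun i _ => sq_nonneg _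
    linarith
  have hv2 : ∫ ω, (fT (U x (fun j => η j ω), x) - C) ∂P ≤
      ∫ ω, fV Δ (U x (fun j => η j ω), x) ∂P := by
    refine integral_mono (hTint.sub (integrable_const _)) hV fun ω => ?_
    simp only [fV_eq]
    have := hb.sq (U x (fun j => η j ω) + x)
    linarith
  rw [integral_sub hTint (integrable_const _)] at hv2
  simp only [integral_const, probReal_univ, one_smul] at hv2
  have hC : 0 ≤ C := by simpa using hb.sq 0
  set S := Real.sqrt x with hS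
  have hS1 : 1 ≤ S := by
    rw [hS]; exact Real.one_le_sqrt.2 (by exact_mod_cast hx)
  have hSS : S * S = x := Real.mul_self_sqrt (by positivity)
  have hS0 : 0 < S := by linarith
  have hsq : Integrable (fun ω => (((U x (fun j => η j ω) : ℕ) : ℝ) - x) ^ 2) P := by
    have h1 : (fun ω => (((U x (fun j => η j ω) : ℕ) : ℝ) - x) ^ 2) =
        fun ω => ((U x (fun j => η j ω) : ℕ) : ℝ) ^ 2 - 2 * x * ((U x (fun j => η j ω) : ℕ) : ℝ)
          + (x:ℝ) ^ 2 := by
      funext ω; ring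
    rw [h1]
    exact (hU2.sub (hU1.const_mul _)).add (integrable_const _)
  -- comparison
  have hpt : ∀ ω, |(((U x (fun j => η j ω) : ℕ) : ℝ) - x) ^ 2 -
      (fM Δ (U x (fun j => η j ω), x)) ^ 2| ≤
      (fM Δ (U x (fun j => η j ω), x)) ^ 2 * S⁻¹ + (D ^ 2 * S + D ^ 2) := by
    intro ω
    set m := fM Δ (U x (fun j => η j ω), x) with hm
    set d := Δ (U x (fun j => η j ω) + x) with hd
    have h1 : ((U x (fun j => η j ω) : ℕ) : ℝ) - x = m + d := by
      rw [hm, hd]; simp only [fM]; ring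
    rw [h1]
    have h2 : |d| ≤ D := hb.bd _
    have h3 : d ^ 2 ≤ D ^ 2 := by rw [← sq_abs d]; exact pow_le_pow_left₀ (abs_nonneg _) h2 2
    have h4 : (m + d) ^ 2 - m ^ 2 = 2 * m * d + d ^ 2 := by ring
    rw [h4]
    have h5 : |2 * m * d| ≤ m ^ 2 * S⁻¹ + d ^ 2 * S := by
      have e1 : m ^ 2 * S⁻¹ + d ^ 2 * S - 2 * (m * d) = (m - d * S) ^ 2 * S⁻¹ := by
        field_simp; ring
      have e2 : m ^ 2 * S⁻¹ + d ^ 2 * S + 2 * (m * d) = (m + d * S) ^ 2 * S⁻¹ := by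
        field_simp; ring
      have p1 : 0 ≤ (m - d * S) ^ 2 * S⁻¹ := by positivity
      have p2 : 0 ≤ (m + d * S) ^ 2 * S⁻¹ := by positivity
      rw [abs_le]
      constructor <;> nlinarith
    calc |2 * m * d + d ^ 2| ≤ |2 * m * d| + |d ^ 2| := abs_add_le _ _
      _ ≤ (m ^ 2 * S⁻¹ + d ^ 2 * S) + D ^ 2 := add_le_add h5 (by rw [abs_of_nonneg (sq_nonneg _)]; exact h3)
      _ ≤ _ := by nlinarith [mul_le_mul_of_nonneg_right h3 hS0.le]
  have hcmp : |∫ ω, (((U x (fun j => η j ω) : ℕ) : ℝ) - x) ^ 2 ∂P -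
      ∫ ω, (fM Δ (U x (fun j => η j ω), x)) ^ 2 ∂P| ≤
      (∫ ω, (fM Δ (U x (fun j => η j ω), x)) ^ 2 ∂P) * S⁻¹ + (D ^ 2 * S + D ^ 2) := by
    rw [← integral_sub hsq hM2]
    refine (abs_integral_le_integral_abs).trans ?_
    have h1 := integral_mono (μ := P) (hsq.sub hM2).abs
      ((hM2.mul_const S⁻¹).add (integrable_const (D ^ 2 * S + D ^ 2))) (fun ω => hpt ω)
    refine h1.trans (le_of_eq ?_)
    have h2 := integral_add (μ := P) (hM2.mul_const S⁻¹) (integrable_const (D ^ 2 * S + D ^ 2))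
    simp only [integral_const, probReal_univ, one_smul] at h2
    rw [integral_mul_const] at h2
    exact h2
  have hρ' := abs_le.1 hρ
  rw [hT] at hv1 hv2
  rw [← z2] at hv1 hv2
  set I2 := ∫ ω, (fM Δ (U x (fun j => η j ω), x)) ^ 2 ∂P with hI2
  have hI2le : I2 ≤ 2 * x + D := by linarith [hρ'.2]
  have h9 : I2 * S⁻¹ ≤ 2 * S + D := by
    have : I2 * S⁻¹ ≤ (2 * x + D) * S⁻¹ := mul_le_mul_of_nonneg_right hI2le (by positivity)
    refine this.trans ?_
    rw [← hSS]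
    have hi : S⁻¹ ≤ 1 := inv_le_one_of_one_le₀ hS1
    have : (2 * (S * S) + D) * S⁻¹ = 2 * S + D * S⁻¹ := by field_simp
    rw [this]
    nlinarith
  have hcmp' := abs_le.1 hcmp
  rw [abs_le]
  constructor
  · nlinarith [hρ'.1, hρ'.2, mul_nonneg hD hS0.le, mul_nonneg hC hS0.le, sq_nonneg D, mul_nonneg (sq_nonneg D) hS0.le]
  · nlinarith [hρ'.1, hρ'.2, mul_nonneg hD hS0.le, mul_nonneg hC hS0.le, sq_nonneg D, mul_nonneg (sq_nonneg D) hS0.le]

end Pool.Agent.helper358_erw
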